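import Pool.Agent.H98.MA.HSX

/-!
FCX: the space is first countable.
-/

set_option linter.unusedVariables false
set_option linter.unusedSectionVars false
set_option synthInstance.maxSize 100000

namespace SW

theorem ma_fcx (h1 : TRCStmt) (h2 : SEQStmt) (h3 : CBTStmt) : FCXStmt := by
  intro M _ _ w X T B D hw hfree sp p hp
  by_contra hcon
  have cb := h3 M
  obtain ⟨V, hV⟩ := h2 M w (sep B (fun W : M => E p W)) (fun C W : M => ∀ W' : M, E W' C →
    ¬ ∀ z : M, E z W' → Clo T W z) hw inferInstance (by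
    intro C hC hCc
    have h4 : ¬ ∀ V, E V T → E p V → ∃ W, E W C ∧ Sub W V := fun h => hcon ⟨C, by
      intro z hz
      have := hC z hz
      rw [mem_sep] at this
      exact sp.bT z this.1, hCc, by
      intro z hz
      have := hC z hz
      rw [mem_sep] at this
      exact this.2, h⟩
    push Not at h4
    obtain ⟨U, hU, hpU, hUC⟩ := h4
    obtain ⟨O, hO, hpO, hcl⟩ := sp.reg hU hpU
    obtain ⟨W, hWB, hpW, hWO⟩ := sp.bas hO hpO
    refine ⟨W, ?_, ?_⟩
    · rw [mem_sep]
      exact ⟨hWB, hpW⟩
    · intro W' hW' hall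
      refine hUC W' hW' (fun z hz => ?_)
      have h5 := hC W' hW'
      rw [mem_sep] at h5
      exact hcl z (sp.sub (sp.bT _ h5.1) z hz) (hsx_mono hWO (hall z hz)))
  refine h1 M w X T B D V hw hfree sp ?_ ?_
  · intro a ha
    have := (hV a ha).1
    rw [mem_sep] at this
    exact this.1
  · intro a b hb hab hsub
    have ha : E a w := hw.1.trans hb hab
    have h6 := (hV a ha).1
    rw [mem_sep] at h6
    refine (hV b hb).2 (app V a) ?_ (fun z hz => hsx_clo sp (sp.bT _ h6.1) hsub hz)
    rw [mem_img]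
    exact ⟨a, hab, rfl⟩

end SW
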