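import Pool.Agent.H98.MA.Prj

/-!
HLX: the space is hereditarily Lindelöf.
-/

set_option linter.unusedVariables false
set_option linter.unusedSectionVars false
set_option synthInstance.maxSize 100000

namespace SW

section
variable {M : Type} [SetStr M] [ZFC M]

/-- the third entry of `app V a` -/
noncomputable def hlx_W (V a : M) : M := hx_r (hx_r (app V a))

theorem hlx_W_df : Fn2 (fun V a : M => hlx_W V a) := by unfold hlx_W; infer_instance

instance {n : ℕ} {t s : (Fin n → M) → M} [ht : DfT t] [hs : DfT s] :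
    DfT (fun v => hlx_W (t v) (s v)) := hlx_W_df.comp2 ht hs

/-- the relation for the first sequence -/
def hlx_P (u B C t : M) : Prop := ∃ x U W : M, t = opair x (opair U W) ∧ E x W ∧ Sub W U ∧
  E W B ∧ E U u ∧ ∀ x' U' W' : M, E (opair x' (opair U' W')) C → ¬ E x U'

/-- the relation for the second sequence -/
def hlx_Q (w V C b : M) : Prop := (∀ c : M, E c C → E c b) ∧ ∀ β : M, E β w →
  (∀ c : M, E c C → E c β) → Sub (hlx_W V b) (hlx_W V β) → hlx_W V β = hlx_W V b

theorem hlx_seq (h1 : SEQStmt) (cb : CbFacts M) {w X T B D u : M} (hw : IsW w)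
    (sp : Sp X T B D) (hu : Sub u T)
    (hcon : ¬ ∃ c, Sub c u ∧ Cb c ∧ Sub (sUn u) (sUn c)) :
    ∃ V : M, ∀ a : M, E a w → hlx_P u B (img a (fun b => app V b)) (app V a) := by
  obtain ⟨V, hV⟩ := h1 M w (prod X (prod u B)) (hlx_P u B) hw
    (by unfold hlx_P; infer_instance) (by
    intro C hC hCc
    set c : M := sep u (fun U : M => ∃ x W : M, E (opair x (opair U W)) C) with hc
    have hcu : Sub c u := fun z hz => by rw [hc, mem_sep] at hz; exact hz.1
    have hcc : Cb c := by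
      refine cb.sub (cb.img (fun t : M => hx_l (hx_r t)) inferInstance hCc) ?_
      intro z hz
      rw [hc, mem_sep] at hz
      obtain ⟨_, x, W, hxW⟩ := hz
      rw [mem_img]
      exact ⟨_, hxW, by simp⟩
    have h2 : ¬ Sub (sUn u) (sUn c) := fun h => hcon ⟨c, hcu, hcc, h⟩
    unfold Sub at h2
    push Not at h2
    obtain ⟨x, hx, hxc⟩ := h2
    rw [mem_sUn] at hx
    obtain ⟨U, hU, hxU⟩ := hx
    obtain ⟨W, hWB, hxW, hWU⟩ := sp.bas (hu U hU) hxU
    refine ⟨opair x (opair U W), ?_, x, U, W, rfl, hxW, hWU, hWB, hU, ?_⟩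
    · rw [mem_prod, mem_prod]
      exact ⟨sp.sub (hu U hU) x hxU, hU, hWB⟩
    · intro x' U' W' hC' hxU'
      apply hxc
      rw [mem_sUn]
      have h3 := hC _ hC'
      rw [mem_prod, mem_prod] at h3
      refine ⟨U', ?_, hxU'⟩
      rw [hc, mem_sep]
      exact ⟨h3.2.1, x', W', hC'⟩)
  exact ⟨V, fun a ha => (hV a ha).2⟩

theorem hlx_thin (h1 : SEQStmt) (cb : CbFacts M) {w X T B D V : M} (hw : IsW w)
    (wf : WFacts w) (sp : Sp X T B D) (hB : ∀ a : M, E a w → E (hlx_W V a) B) :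
    ∃ G : M, ∀ a : M, E a w → E (app G a) w ∧
      hlx_Q w V (img a (fun b => app G b)) (app G a) := by
  obtain ⟨G, hG⟩ := h1 M w w (hlx_Q w V) hw
    (by unfold hlx_Q; infer_instance) (by
    intro C hC hCc
    obtain ⟨b0, hb0, hb0'⟩ := wf.bdd hC hCc
    obtain ⟨A, hA, hmax⟩ := sp.max
      (img (sep w (fun β : M => ∀ c : M, E c C → E c β)) (fun β : M => hlx_W V β)) (by
        intro z hz
        rw [mem_img] at hz
        obtain ⟨β, hβ, rfl⟩ := hz
        rw [mem_sep] at hβ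
        exact hB β hβ.1) ⟨hlx_W V b0, by
          rw [mem_img]
          exact ⟨b0, by rw [mem_sep]; exact ⟨hb0, hb0'⟩, rfl⟩⟩
    rw [mem_img] at hA
    obtain ⟨b, hb, rfl⟩ := hA
    rw [mem_sep] at hb
    refine ⟨b, hb.1, hb.2, fun β hβ hβC hsub => hmax _ ?_ hsub⟩
    rw [mem_img]
    exact ⟨β, by rw [mem_sep]; exact ⟨hβ, hβC⟩, rfl⟩)
  exact ⟨G, hG⟩

end

theorem ma_hlx (h1 : SEQStmt) (h2 : CBTStmt) (h3 : WFStmt) : HLXStmt := by
  intro M _ _ w X T B D hw sp u hu
  by_contra hcon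
  have cb := h2 M
  have wf := h3 M w hw
  obtain ⟨V, hV⟩ := hlx_seq h1 cb hw sp hu hcon
  have hB : ∀ a : M, E a w → E (hlx_W V a) B := by
    intro a ha
    obtain ⟨x, U, W, ht, hxW, hWU, hWB, hU, _⟩ := hV a ha
    unfold hlx_W
    rw [ht]
    simpa using hWB
  have htr : ∀ {a b : M}, E b w → E a b → E a w := fun hb hab => hw.1.trans hb hab
  have hB2 : ∀ a b : M, E b w → E a b → ¬ Sub (hlx_W V b) (hlx_W V a) := by
    intro a b hb hab hsub
    obtain ⟨x, U, W, ht, hxW, hWU, hWB, hU, hn⟩ := hV b hb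
    obtain ⟨x', U', W', ht', hxW', hWU', _, _, _⟩ := hV a (htr hb hab)
    have e1 : hlx_W V b = W := by unfold hlx_W; rw [ht]; simp
    have e2 : hlx_W V a = W' := by unfold hlx_W; rw [ht']; simp
    rw [e1, e2] at hsub
    refine hn x' U' W' ?_ (hWU' _ (hsub _ hxW))
    rw [← ht', mem_img]
    exact ⟨a, hab, rfl⟩
  obtain ⟨G, hG⟩ := hlx_thin h1 cb hw wf sp hB
  have hg1 : ∀ a b : M, E b w → E a b → E (app G a) (app G b) := by
    intro a b hb hab
    refine (hG b hb).2.1 _ ?_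
    rw [mem_img]
    exact ⟨a, hab, rfl⟩
  refine hx_noseq cb sp (fun a : M => hlx_W V (app G a)) inferInstance hw.2.1
    (fun a ha => hB _ (hG a ha).1) ?_
  intro a b ha hb hab hsub
  rcases (wf.ord ha).tri (wf.ord hb) with h | h | h
  · have h4 := (hG a ha).2.2 (app G b) (hG b hb).1 (by
      intro c hc
      rw [mem_img] at hc
      obtain ⟨a', ha', rfl⟩ := hc
      exact hg1 a' b hb ((wf.ord hb).trans h ha')) hsub
    refine hB2 (app G a) (app G b) (hG b hb).1 (hg1 a b hb h) ?_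
    rw [h4]
    exact Sub.refl _
  · exact hab h
  · exact hB2 (app G b) (app G a) (hG a ha).1 (hg1 b a ha h) hsub

end SW
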