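import Pool.Agent.H98.MA.Prj

/-!
HSX: the space is hereditarily separable.
-/

set_option linter.unusedVariables false
set_option linter.unusedSectionVars false
set_option synthInstance.maxSize 100000

namespace SW

section
variable {M : Type} [SetStr M] [ZF M]

/-- if the trace of `U` on the dense set is contained in `W` then `U` is in the closure of `W` -/
theorem hsx_clo {X T B D U W x : M} (sp : Sp X T B D) (hU : E U T)
    (hs : Sub (inter U D) W) (hx : E x U) : Clo T W x := by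
  intro O hO hxO
  obtain ⟨z, hz, hzD⟩ := sp.dns (sp.int hO hU) ⟨x, by rw [mem_inter]; exact ⟨hxO, hx⟩⟩
  rw [mem_inter] at hz
  exact ⟨z, hz.1, hs z (by rw [mem_inter]; exact ⟨hz.2, hzD⟩)⟩

/-- closures are monotone -/
theorem hsx_mono {T W W' x : M} (h : Sub W W') (hx : Clo T W x) : Clo T W' x := by
  intro O hO hxO
  obtain ⟨z, hz, hz'⟩ := hx O hO hxO
  exact ⟨z, hz, h z hz'⟩

end

theorem ma_hsx (h1 : TRCStmt) (h2 : SEQStmt) (h3 : CBTStmt) : HSXStmt := by
  intro M _ _ w X T B D hw hfree sp Y hY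
  by_contra hcon
  have cb := h3 M
  obtain ⟨V, hV⟩ := h2 M w (prod X B) (fun C t : M => ∃ x W : M, t = opair x W ∧ E x Y ∧ E x W ∧
    E W B ∧ ∀ x' W' : M, E (opair x' W') C → E x' Y → ¬ Clo T W x') hw inferInstance (by
    intro C hC hCc
    set Z : M := sep Y (fun x : M => ∃ W : M, E (opair x W) C) with hZ
    have hZY : Sub Z Y := fun z hz => by rw [hZ, mem_sep] at hz; exact hz.1
    have hZc : Cb Z := by
      refine cb.sub (cb.img (fun t : M => hx_l t) inferInstance hCc) ?_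
      intro z hz
      rw [hZ, mem_sep] at hz
      obtain ⟨_, W, hxW⟩ := hz
      rw [mem_img]
      exact ⟨_, hxW, by simp⟩
    have h4 : ¬ ∀ y, E y Y → Clo T Z y := fun h => hcon ⟨Z, hZY, hZc, h⟩
    push Not at h4
    obtain ⟨y, hy, hyZ⟩ := h4
    unfold Clo at hyZ
    push Not at hyZ
    obtain ⟨U, hU, hyU, hUZ⟩ := hyZ
    obtain ⟨O, hO, hyO, hcl⟩ := sp.reg hU hyU
    obtain ⟨W, hWB, hyW, hWO⟩ := sp.bas hO hyO
    refine ⟨opair y W, ?_, y, W, rfl, hy, hyW, hWB, ?_⟩
    · rw [mem_prod]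
      exact ⟨hY y hy, hWB⟩
    · intro x' W' hC' hx' hcl'
      refine hUZ x' (hcl x' (hY x' hx') (hsx_mono hWO hcl')) ?_
      rw [hZ, mem_sep]
      exact ⟨hx', W', hC'⟩)
  have happ : ∀ a : M, E a w → app (gr w (fun a : M => hx_r (app V a))) a =
      hx_r (app V a) := fun a ha => app_gr (f := fun a : M => hx_r (app V a)) inferInstance ha
  refine h1 M w X T B D (gr w (fun a : M => hx_r (app V a))) hw hfree sp ?_ ?_
  · intro a ha
    rw [happ a ha]
    obtain ⟨x, W, ht, hxY, hxW, hWB, hn⟩ := (hV a ha).2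
    rw [ht, hx_r_opair]
    exact hWB
  · intro a b hb hab hsub
    have ha : E a w := hw.1.trans hb hab
    rw [happ a ha, happ b hb] at hsub
    obtain ⟨x, W, ht, hxY, hxW, hWB, hn⟩ := (hV b hb).2
    obtain ⟨x', W', ht', hxY', hxW', hWB', hn'⟩ := (hV a ha).2
    rw [ht, ht', hx_r_opair, hx_r_opair] at hsub
    refine hn x' W' ?_ hxY' (hsx_clo sp (sp.bT _ hWB') hsub hxW')
    rw [← ht', mem_img]
    exact ⟨a, hab, rfl⟩

end SW
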