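import Pool.Agent.H98.MA.Prj

/-!
TRC: the trace lemma.
-/

set_option linter.unusedVariables false
set_option linter.unusedSectionVars false
set_option synthInstance.maxSize 100000

namespace SW

section
variable {M : Type} [SetStr M] [ZFC M]

theorem trc_hl (h0 : ACFStmt) (cb : CbFacts M) {D : M} (hD : Cb D) : HLp (pow D) := by
  intro u hu
  obtain ⟨g, hg⟩ := h0 M u
  have hch : ∀ x : M, E x (sUn u) → E (app g (sep u (fun U : M => E x U)))
      (sep u (fun U : M => E x U)) := by
    intro x hx
    apply hg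
    · intro z hz
      rw [mem_sep] at hz
      exact hz.1
    · rw [mem_sUn] at hx
      obtain ⟨U, hU, hxU⟩ := hx
      exact ⟨U, by rw [mem_sep]; exact ⟨hU, hxU⟩⟩
  refine ⟨img (sUn u) (fun x : M => app g (sep u (fun U : M => E x U))), ?_, ?_, ?_⟩
  · intro z hz
    rw [mem_img] at hz
    obtain ⟨x, hx, rfl⟩ := hz
    have := hch x hx
    rw [mem_sep] at this
    exact this.1
  · refine cb.img _ inferInstance (cb.sub hD ?_)
    intro z hz
    rw [mem_sUn] at hz
    obtain ⟨U, hU, hzU⟩ := hz
    have := hu U hU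
    rw [mem_pow] at this
    exact this z hzU
  · intro x hx
    rw [mem_sUn]
    have := hch x hx
    rw [mem_sep] at this
    exact ⟨_, by rw [mem_img]; exact ⟨x, hx, rfl⟩, this.2⟩

theorem trc_pb (cb : CbFacts M) {D : M} (hD : Cb D) : PBp (pow D) := by
  intro u hu
  refine ⟨img (diff D (sUn u)) (fun x : M => sing x), ?_, ?_, ?_, ?_⟩
  · intro z hz
    rw [mem_img] at hz
    obtain ⟨x, hx, rfl⟩ := hz
    rw [mem_pow]
    intro y hy
    rw [mem_sing] at hy
    rw [mem_diff] at hx
    rw [hy]
    exact hx.1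
  · refine cb.img _ inferInstance (cb.sub hD ?_)
    intro z hz
    rw [mem_diff] at hz
    exact hz.1
  · intro z hz hs
    rw [mem_img] at hz
    obtain ⟨x, hx, rfl⟩ := hz
    rw [mem_diff] at hx
    exact hx.2 (hs x (by rw [mem_sing]))
  · intro z hz hn
    unfold Sub at hn
    push Not at hn
    obtain ⟨x, hxz, hxu⟩ := hn
    rw [mem_pow] at hz
    refine ⟨sing x, ?_, ?_⟩
    · rw [mem_img]
      exact ⟨x, by rw [mem_diff]; exact ⟨hz x hxz, hxu⟩, rfl⟩
    · intro y hy
      rw [mem_sing] at hy
      rw [hy]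
      exact hxz

end

theorem ma_trc (h0 : ACFStmt) (h1 : COMBStmt) (h2 : CBTStmt) : TRCStmt := by
  intro M _ _ w X T B D V hw hfree sp hV hlt
  have cb := h2 M
  have happ : ∀ a : M, E a w → app (gr w (fun a : M => inter (app V a) D)) a =
      inter (app V a) D := fun a ha => app_gr (f := fun a : M => inter (app V a) D)
        inferInstance ha
  obtain ⟨A, hA, hAc, hA2⟩ := h1 M w (pow D) (gr w (fun a : M => inter (app V a) D)) hw hfree
    (by
      refine ⟨fun a ha => ?_, fun a b hb hab hsub => ?_⟩
      · rw [happ a ha, mem_pow]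
        intro z hz
        rw [mem_inter] at hz
        exact hz.2
      · rw [happ a (hw.1.trans hb hab), happ b hb] at hsub
        refine hlt a b hb hab (fun z hz => ?_)
        have := hsub z hz
        rw [mem_inter] at this
        exact this.1)
    (trc_hl h0 cb sp.dC) (trc_pb cb sp.dC)
  refine hx_noseq cb sp (fun a : M => app V a) inferInstance hAc (fun a ha => hV a (hA a ha)) ?_
  intro a b ha hb hab hsub
  apply hA2 a b ha hb hab
  rw [happ a (hA a ha), happ b (hA b hb)]
  intro z hz
  rw [mem_inter] at hz ⊢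
  exact ⟨hsub z hz.1, hz.2⟩

end SW
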