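import Pool.Agent.H13.MA.TStmts

/-!
Projections of ordered pairs and a lemma on families of incomparable members of the base.
-/

set_option linter.unusedVariables false
set_option linter.unusedSectionVars false
set_option synthInstance.maxSize 100000

namespace SW

section
variable {M : Type} [SetStr M] [ZF M]

/-- first entry of an ordered pair -/
noncomputable def hx_l (t : M) : M := the (fun x : M => ∃ y : M, t = opair x y)

/-- second entry of an ordered pair -/
noncomputable def hx_r (t : M) : M := the (fun y : M => ∃ x : M, t = opair x y)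

theorem hx_l_df : Fn1 (fun t : M => hx_l t) := by unfold hx_l; infer_instance

theorem hx_r_df : Fn1 (fun t : M => hx_r t) := by unfold hx_r; infer_instance

instance {n : ℕ} {t : (Fin n → M) → M} [ht : DfT t] : DfT (fun v => hx_l (t v)) :=
  hx_l_df.comp1 ht

instance {n : ℕ} {t : (Fin n → M) → M} [ht : DfT t] : DfT (fun v => hx_r (t v)) :=
  hx_r_df.comp1 ht

@[simp] theorem hx_l_opair (x y : M) : hx_l (opair x y) = x :=
  the_eq (p := fun x' : M => ∃ y' : M, opair x y = opair x' y') ⟨y, rfl⟩
    (fun z hz => by obtain ⟨y', h⟩ := hz; exact (opair_inj.1 h).1.symm)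

@[simp] theorem hx_r_opair (x y : M) : hx_r (opair x y) = y :=
  the_eq (p := fun y' : M => ∃ x' : M, opair x y = opair x' y') ⟨x, rfl⟩
    (fun z hz => by obtain ⟨y', h⟩ := hz; exact (opair_inj.1 h).2.symm)

/-- no uncountable family of pairwise incomparable members of the base -/
theorem hx_noseq (cb : CbFacts M) {X T B D A : M} (sp : Sp X T B D) (f : M → M) (hf : Fn1 f)
    (hA : ¬ Cb A) (hB : ∀ a, E a A → E (f a) B)
    (hinc : ∀ a b, E a A → E b A → a ≠ b → ¬ Sub (f a) (f b)) : False := by
  apply hA
  have h1 : Cb (img A f) := by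
    refine sp.inc _ ?_ ?_
    · intro y hy
      rw [mem_img] at hy
      obtain ⟨a, ha, rfl⟩ := hy
      exact hB a ha
    · intro U V hU hV hs
      rw [mem_img] at hU hV
      obtain ⟨a, ha, rfl⟩ := hU
      obtain ⟨b, hb, rfl⟩ := hV
      by_contra hne
      exact hinc a b ha hb (fun h => hne (by rw [h])) hs
  refine cb.inj f hf h1 (fun z hz => by rw [mem_img]; exact ⟨z, hz, rfl⟩) ?_
  intro z z' hz hz' h
  by_contra hne
  exact hinc z z' hz hz' hne (by rw [h]; exact Sub.refl _)

end

end SW
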